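import Mathlib
import Pool.Agent.Y1.KN.All
import Pool.Agent.Y1.KN.Use
import Pool.Agent.Run7.h312.TS.DivTB

/-!
# The motivic t-structure exists on the categories of motives over algebraic extensions of finite
# fields that are generated by abelian varieties: almost all slope types of all CM fields with few CM
# subfields, and of all CM fields whose degree has a large prime factor

Let `k` be a finite field or, more generally, an algebraic extension of a finite field of
characteristic `p`. We consider thick tensor subcategories `D` of `DM_c(k)` which are generated by
the twists `M(Y)(n)` of the motives of the abelian varieties `Y` over `k` with given slope types (in the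
sense below). They contain the motives of all curves with Jacobians among the `Y`, of products of such
curves and of open subsets of them, and of all varieties, singular or open, with a stratification by
such varieties.

The abelian varieties. Over an algebraic closure of the field with `p` elements each abelian
variety is isogenous to the reduction of an abelian variety of CM type (Honda, Tate). So an abelian
variety over the field with `p ^ a` elements is modelled by `RedAV`: a finite product of CM types
`(E i, Φ i)` with Weil numbers
`π i ∈ E i` that satisfy the formula of Shimura and Taniyama; its cohomology of degree `n`, with
coefficients in an algebraically closed field `Ω`, consists of the alternating `n`-forms on `Ω ⊗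
H_1`, on which the Frobenius endomorphism acts by `π`. We fix an isomorphism `ν` of the algebraic
closure of `ℚ_p` with `ℂ`; it defines a `p`-adic valuation of `ℂ`, with the value one at `p`.

Let `K i` be finitely many CM fields, of degrees `2 g i`, that are pairwise independent: for `i ≠ k`
and all complex embeddings `φ` of `K i` and `ψ` of `K k` some automorphism of `ℂ` is the identity on
`φ (K i)` and the complex conjugation on `ψ (K k)` (this is no condition for one field). Nothing is
assumed about their Galois groups. Let `M i` be a function with nonzero integral values, all of
which divide `n i`, on the complex embeddings of `K i`, invariant under complex conjugation (the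
weights). A CM type `Φ i` of `K i` (a choice of one element out of each complex conjugate pair of
embeddings; there are `2 ^ (g i)` types), `M i` and a real number `κ ≠ 0` prescribe the slopes `(a +
κ M) / 2` (at the embeddings in `Φ i`) and `(a - κ M) / 2` (outside of `Φ i`) of a Weil number in `K
i`. If `p` splits completely in `K i` then, by Honda and Tate, all slopes with rational values
between `0` and `a` that are symmetric in this way occur for abelian varieties. The case `M = 1`, `κ
= a` is the ordinary case; the assumption on `M` says that `a / 2` is not a slope. Slopes are
rational, so integral weights `M` are no restriction.

For a family of types `Φ i` let `𝒞` (`OfTypes`) be the class of the abelian varieties `Y` each of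
whose factors is supersingular or has a Frobenius endomorphism some power of which is, for some `i`,
a Weil number in `K i` with the slopes prescribed by `Φ i`, `M i` and some real number `κ i ≠ 0`
(which depends only on `Y` and `i`). So `Y` is, over an algebraic closure, isogenous to a product of
powers of one abelian variety for each `i`, with the given slopes, and of a supersingular one.

The property **MT** of a family of types: **on the categories `D` of motives over algebraic
extensions `k` of finite fields generated by abelian varieties in `𝒞` there is a t-structure as in Q1:
it is non-degenerate, compatible with the tensor product, and the `ℓ`-adic realisations are t-exact for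
all primes `ℓ ≠ p` at once.** Moreover all morphisms of `D` are von Neumann regular, so `D` is
semisimple.

The categories (`ExistsFor`). `C j` (`j : J`) are the categories of motives over the finite subfields
`k j` of `k`, generated by the twists of the motives of abelian varieties over `k j` in `𝒞`, and `D` is
the union of the `C j` (`IsUnion`); for a finite field `k` one takes `J` with one element and
`D = C j`. As in the other theorems for this problem they are rigid tensor triangulated categories
with realisations (`Realisation`). `C j` has rational coefficients and splitting idempotents, and is
generated as a thick subcategory by the objects `X ⊗ tw n` (`IsGeneratedBy`), where `X` has the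
property `S` (the motives `M(Y)`) and `tw n = 𝟙(n)`. The Künneth components of the diagonal of `Y` are
given by algebraic cycles independent of `ℓ` (Lieberman, Katz and Messing). For one prime number `ℓ₀`
the geometric Frobenius over `k j` is an endomorphism of the realisation, the coefficients of which
are extended to an algebraically closed field (`IsFrobenius`). The motivic homology of an object `X`
is `H_i(X, ℚ(j)) = Hom(𝟙, X(-j)[-i])`, its `ℓ`-adic homology is `H^0` of the realisation of
`X(-j)[-i]`, and the regulator is the realisation (`homology`); for `X = M(Y)` they are those of an
abelian variety `Y` in `𝒞` (`IsAbelianOfSlopeTypes`).

Properties of the theory of cycles that are used for the abelian varieties (`IsChowRing`,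
`IsMotivic`): Poincaré duality, the formal properties of correspondences, the nilpotence of
homologically trivial correspondences (Kimura), the operation of the Frobenius endomorphism on
higher Chow groups, the vanishing of the higher rational `K`-groups of a finite field (Quillen), and
the algebraicity of those Tate classes which are linear combinations of products of Tate classes of
degree two over finite extensions of the ground field (theorem of Tate).

A family of types is exceptional (`exceptionalFamilies ν K M`) if the property **MT** is
false for it. The theorem bounds the number of the exceptional families: it is at most `2 ^ (∑ i, g
i) * ∑ i, C * (n i) ^ 2 * rate (K i) (g i) (q i)`, with an absolute constant `C`. Here `q i` is any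
prime factor of `g i` (or `q i = 1`), and `rate K g q` is `(1 + log (2 g)) ^ 16` times the smaller
of the numbers

* `W (K) / √g`, where (second part of the theorem, `WeightEstimate`) `W (K) ≤ N ^ 2 * D ^ (1 / 4)`;
  `N` is the number of the CM subfields of `K` (with `K`) and `D` is the largest degree of a CM
  subfield of `K` that is normal over `ℚ` with a nonabelian Galois group (`D = 1` if there are
  none);
* `√g / q`.

So the exceptional types are a proportion `O (n ^ 2 * g ^ (-1 / 4) * (log g) ^ 16)` of all types of
all CM fields with a bounded number of CM subfields, and `O (n ^ 2 * g ^ (-1 / 2) * (log g) ^ 16)`
if the normal nonabelian ones have bounded degrees (for instance if `K` has no proper CM subfields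
and is not normal). And they are a proportion `O (n ^ 2 * g ^ (-δ) * (log g) ^ 16)` of the types of
all CM fields `K`, with any number of subfields, whose degree is divisible by a prime number `q ≥ g
^ (1 / 2 + δ)`; for small `δ` there are such primes for about `log 2`, that is 69%, of all numbers
`g`. Some assumption is necessary: a multiquadratic CM field of degree `2 g` has `g` imaginary
quadratic subfields, and almost all of its types are degenerate. Nothing is assumed about the Galois
groups.

The number `W (K)` (`subfieldWeight K`) is defined as follows. The automorphisms of `ℂ` act on the
rational functions on the set of the complex embeddings of `K` which change their sign under complex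
conjugation. A field of definition (`fieldsOfDefinition K`) of an isotypic component of this
representation is a smallest subfield `F` of `K` such that the values of the functions in the
component depend only on the restrictions of the embeddings to `F`. It is a CM field. Then `W (K)`
is the sum over these fields `F` of the number of the CM subfields of `F`, multiplied by `[F : ℚ] ^
(1 / 4)` if `F` is normal over `ℚ` and its Galois group is not abelian.

The proof: for types without relations all relations between the Frobenius eigenvalues are products
of relations between two eigenvalues (`TH170/GS` of the starting files; the counting part is the one
of `AllCMFields`, MP_e12fcd_ag, MP_ee618e_ag, of the starting files), so the Tate classes are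
polynomials in divisor classes (`TS/DivMain`), and by Soulé, Geisser, Kahn, Jannsen the regulators of the generators are
isomorphisms onto the Frobenius invariants in all degrees. The t-structure is constructed from this in
`Run7/h312/TS`: by the five lemma the regulators are isomorphisms for all objects of `C j`, so the
realisation is faithful, the rational trace form on the ring `End X` is not degenerate for `X` in
degree zero, this ring is semisimple; hence the class of the objects with Künneth components given by
endomorphisms, independent of `ℓ`, is closed under extensions, and contains all objects.
-/

set_option autoImplicit false

namespace Pool.Agent.Results.MP_6d0ce9_ag.AllCMFields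

open NumberField Module Pool.Agent.H204R3.CM Pool.Agent.H977R3.CM Pool.Agent.Y1.KN
  Pool.Agent.Run7.h312.TS

/-- The exceptional families of CM types: those for which the motivic t-structure does not exist on
one of the categories of motives over algebraic extensions of finite fields generated by abelian
varieties with the slope types `Φ` (or the category is not semisimple). -/
def exceptionalFamilies {p : ℕ} [Fact p.Prime] (ν : PadicAlgCl p ≃+* ℂ) {I : Type} (K : I → Type)
    [∀ i, Field (K i)] (M : ∀ i, (K i →+* ℂ) → ℤ) : Set (∀ i, Set (K i →+* ℂ)) :=
  {Φ | (∀ i, IsCMType (Φ i)) ∧ ¬ ExistsFor fun _ _ _ _ T X => IsAbelianOfSlopeTypes ν K M Φ T X}

/-- **The motivic t-structure exists on the categories of motives over algebraic extensions of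
finite fields generated by abelian varieties with almost all slope types of all CM fields with few
CM subfields, and of all CM fields whose degree has a large prime factor.** -/
theorem result :
    (∃ C : ℝ, 0 ≤ C ∧ ∀ (p : ℕ) [Fact p.Prime] (ν : PadicAlgCl p ≃+* ℂ) (I : Type) [Fintype I]
      (K : I → Type) [∀ i, Field (K i)] [∀ i, NumberField (K i)] [∀ i, IsCMField (K i)]
      (M : ∀ i, (K i →+* ℂ) → ℤ) (n g q : I → ℕ), PairwiseIndep K →
      (∀ i φ, M i (ComplexEmbedding.conjugate φ) = M i φ) → (∀ i, n i ≠ 0) →
      (∀ i φ, M i φ ∣ (n i : ℤ)) → (∀ i, finrank ℚ (K i) = 2 * g i) →
      (∀ i, q i ∣ g i ∧ (q i = 1 ∨ (q i).Prime)) →
      ((exceptionalFamilies ν K M).ncard : ℝ) ≤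
        2 ^ (∑ i, g i) * ∑ i, C * (n i : ℝ) ^ 2 * rate (K i) (g i) (q i)) ∧
    WeightEstimate := by
  obtain ⟨C, hC0, hC⟩ := families_holds
  refine ⟨⟨C, hC0, ?_⟩, weight_estimate_holds⟩
  intro p _ ν I _ K _ _ _ M n g q hind hM hn hMn hg hq
  exact hC I K M n g q hM hn hMn hg hq _ fun Φ hΦ hnd => existsFor_slopeTypes hind hM hΦ hnd

end Pool.Agent.Results.MP_6d0ce9_ag.AllCMFields
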