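import Pool.Agent.Run7.h478.FF.Faithful

/-!
# The motivic t-structure over a finite field

Let `C` be the category of constructible motives over a finite field `k` (or any category with the
formal properties listed in `FiniteFieldMotives`), with its realisations `R l`. The following
statements are equivalent:

* there is a t-structure on `C` which is motivic for all realisations;
* there is a t-structure on `C` which is motivic for the single realisation `R l₀`;
* the single realisation `R l₀` is faithful;
* rational and numerical equivalence agree and Parshin's conjecture holds;
* `C` is semisimple, in the sense that every morphism `f` has a `g` with `f ≫ g ≫ f = f`, that is,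
  all distinguished triangles split.

Nothing relates the realisations for different primes in the second and the third statement, and
the Tate conjecture is not assumed. The same holds for the thick tensor subcategory generated by
the motives of some smooth projective varieties.

The proof. Weights: the Frobenius acts trivially on `𝟙` and without the eigenvalue `1` on `H^i(X)`,
`i ≠ 0`, so that a morphism from a shift of `𝟙` to a pure motive only sees the part in degree `0`,
which is a direct summand. If the realisation is faithful and a cycle class `s : 𝟙 ⟶ N` with `N` in
degree `0` is numerically trivial and not zero, the cone of `s` has vanishing exterior powers, and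
this contradicts the vanishing of the negative higher Chow groups. Conversely all motives are sums
of shifts of indecomposable pure ones, which are compared by Schur's lemma.
-/

set_option autoImplicit false

open CategoryTheory Limits MonoidalCategory Pretriangulated Triangulated

universe v u w

namespace Pool.Agent.Results.MP_6d0ce9_ag.FiniteFields

open Pool.Agent.Y116.MT Run7.h478.FF

/-- Over a finite field the existence of the motivic t-structure, for all primes or for one prime,
the faithfulness of one realisation, the equality of rational and numerical equivalence together
with Parshin's conjecture, and the semisimplicity of the category of motives are equivalent. -/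
theorem result {C : Type u} [Category.{v} C] [Preadditive C] [HasZeroObject C] [HasShift C ℤ]
    [∀ n : ℤ, (shiftFunctor C n).Additive] [Pretriangulated C] [IsTriangulated C]
    [MonoidalCategory C] [SymmetricCategory C] [TensorTriangulated C] [MonoidalPreadditive C]
    [RightRigidCategory C] [Linear ℚ C] [IsIdempotentComplete C]
    {Λ : Type*} {E : Λ → Type w} [∀ l, Field (E l)] [∀ l, CharZero (E l)]
    (R : ∀ l, Realisation C (E l)) (l₀ : Λ) (Q : ObjectProperty C) (F : ∀ X : C, X ⟶ X)
    (hM : FiniteFieldMotives Q F R) :
    List.TFAE [
      ∃ t : TStructure C, IsMotivic t R,
      ∃ t : TStructure C, IsMotivic t (fun _ : Unit => R l₀),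
      FaithfulR (R l₀),
      RatEqNum Q ∧ Parshin Q,
      IsRegularCat C] := by
  have : Nonempty Λ := ⟨l₀⟩
  tfae_have 1 → 2 := by
    rintro ⟨t, h⟩
    exact ⟨t, h.nondeg_le, h.nondeg_ge, h.tensor_le, h.tensor_ge, fun _ => h.exact_le l₀,
      fun _ => h.exact_ge l₀⟩
  tfae_have 2 → 4 := of_motivic hM l₀
  tfae_have 3 → 4 := of_faithful hM l₀
  tfae_have 4 → 1 := fun h => (of_conjectures hM h.1 h.2).1
  tfae_have 4 → 3 := fun h => faithful_of_conjectures hM h.1 h.2 l₀
  tfae_have 4 → 5 := fun h => (of_conjectures hM h.1 h.2).2
  tfae_have 5 → 4 := of_regular hM
  tfae_finish

end Pool.Agent.Results.MP_6d0ce9_ag.FiniteFields
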