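import Mathlib
import Pool.Agent.Run7.h879.HA.Bridge
import Pool.Agent.Run7.h312.TS.DivTB

/-!
# The motivic t-structure exists on the categories of motives over algebraic extensions of finite
# fields that are generated by abelian varieties: one half of all slope types of every CM field of
# degree `2 r ^ k`

Let `k` be a finite field or, more generally, an algebraic extension of a finite field of
characteristic `p`. We consider thick tensor subcategories `D` of `DM_c(k)` which are generated by
the twists `M(Y)(n)` of the motives of the abelian varieties `Y` over `k` with given slope types (in the
sense below). They contain the motives of all curves with Jacobians among the `Y`, of products of such
curves and of open subsets of them, and of all varieties, singular or open, with a stratification by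
such varieties.

The abelian varieties. Over an algebraic closure of the field with `p` elements each abelian
variety is isogenous to the reduction of an abelian variety of CM type (Honda, Tate). So an abelian
variety over the field with `p ^ a` elements is modelled by `RedAV`: a finite product of CM types `(E
i, Φ i)` with Weil numbers `π i ∈ E i` that satisfy the formula of Shimura and Taniyama; its
cohomology of degree `n`, with coefficients in an algebraically closed field `Ω`, consists of the
alternating `n`-forms on `Ω ⊗ H_1`, on which the Frobenius endomorphism acts by `π`. We fix an
isomorphism `ν` of the algebraic closure of `ℚ_p` with `ℂ`; it defines a `p`-adic valuation of `ℂ`,
with the value one at `p`.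

Let `K i` be finitely many CM fields, of degrees `2 g i`, that are pairwise independent: for `i ≠ k`
and all complex embeddings `φ` of `K i` and `ψ` of `K k` some automorphism of `ℂ` is the identity on
`φ (K i)` and the complex conjugation on `ψ (K k)` (this is no condition for one field). Nothing is
assumed about their Galois groups. Let `M i` be a function with integral values on the complex
embeddings of `K i`, invariant under complex conjugation (the weights). A CM type `Φ i` of `K i` (a
choice of one element out of each complex conjugate pair of embeddings; there are `2 ^ (g i)`
types), `M i` and a real number `κ ≠ 0` prescribe the slopes `(a + κ M) / 2` (at the embeddings in
`Φ i`) and `(a - κ M) / 2` (outside of `Φ i`) of a Weil number in `K i`. If `p` splits completely in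
`K i` then, by Honda and Tate, all slopes with rational values between `0` and `a` that are
symmetric in this way occur for abelian varieties. The case `M = 1`, `κ = a` is the ordinary case.

For a family of types `Φ i` let `𝒞` (`OfTypes`) be the class of the abelian varieties `Y` each of
whose factors is supersingular or has a Frobenius endomorphism some power of which is, for some `i`,
a Weil number in `K i` with the slopes prescribed by `Φ i`, `M i` and some real number `κ i ≠ 0`.
So `Y` is, over an algebraic closure, isogenous to a product of powers of one abelian variety for
each `i`, with the given slopes, and of a supersingular one. For fixed quotients `κ i / a` the class is
closed under products, and its members generate a thick tensor subcategory.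

The property `Holds` of a family of types: **on the categories `D` of motives over algebraic
extensions `k` of finite fields generated by abelian varieties in `𝒞` there is a t-structure as in Q1:
it is non-degenerate, compatible with the tensor product, and the `ℓ`-adic realisations are t-exact for
all primes `ℓ ≠ p` at once.** Moreover all morphisms of `D` are von Neumann regular, so `D` is
semisimple.

The categories (`ExistsFor`). `C j` (`j : J`) are the categories of motives over the finite subfields
`k j` of `k`, generated by the twists of the motives of abelian varieties over `k j` in `𝒞`, and `D` is
the union of the `C j` (`IsUnion`); for a finite field `k` one takes `J` with one element and
`D = C j`. As in the other theorems for this problem they are rigid tensor triangulated categories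
with realisations (`Realisation`). `C j` has rational coefficients and splitting idempotents, and is
generated as a thick subcategory by the objects `X ⊗ tw n` (`IsGeneratedBy`), where `X` has the
property `S` (the motives `M(Y)`) and `tw n = 𝟙(n)`. The Künneth components of the diagonal of `Y` are
given by algebraic cycles independent of `ℓ` (Lieberman, Katz and Messing). For one prime number `ℓ₀`
the geometric Frobenius over `k j` is an endomorphism of the realisation, the coefficients of which
are extended to an algebraically closed field (`IsFrobenius`). The motivic homology of an object `X`
is `H_i(X, ℚ(j)) = Hom(𝟙, X(-j)[-i])`, its `ℓ`-adic homology is `H^0` of the realisation of
`X(-j)[-i]`, and the regulator is the realisation (`homology`); for `X = M(Y)` they are those of an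
abelian variety `Y` in `𝒞` (`IsAbelianOfSlopeTypes`).

Properties of the theory of cycles that are used for the abelian varieties (`IsChowRing`,
`IsMotivic`): Poincaré duality, the formal properties of correspondences, the nilpotence of
homologically trivial correspondences (Kimura), the operation of the Frobenius endomorphism on
higher Chow groups, the vanishing of the higher rational `K`-groups of a finite field (Quillen), and
the algebraicity of those Tate classes which are linear combinations of products of Tate classes of
degree two over finite extensions of the ground field (theorem of Tate).

**The theorem.** Let `E` be **any CM field of degree `2 g = 2 r ^ k`**, `r` a prime number, of
degree at least `16` if `r = 2`. Nothing is assumed about the Galois group of the normal closure of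
`E`, and nothing about the subfields of `E`.

* (`HalfOfAll`) For all weights `M` (odd if `r = 2`; if `r` is odd then `r` may divide some, but not
  all of them) the property `Holds` is true for **at least one half of all `2 ^ g` types** of `E`.
* (`MostWithWeightsOne`) For the weights `M = 1` (for instance in the ordinary case) it is true for
  at least `(1 - 1 / r) 2 ^ g` of the types.
* (`OneOfTwo`) There is a set `B` of embeddings of `E`, stable under complex conjugation, such that
  for **every** type `Φ` it is true for `Φ` or for the symmetric difference of `Φ` and `B`.
* (`SixteenPercent`) There is a number `g₀` such that for every CM field that is **abelian over
  `ℚ`**, of any degree `2 g ≥ 2 g₀`, and all odd weights it is true for at least 16 percent of all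
  `2 ^ g` types; again nothing is assumed on the subfields.

All this is proved more generally for finitely many pairwise independent fields `K i`; the
proportions are then multiplied.

The proof: for these types all relations between the Frobenius eigenvalues are products of
relations between two eigenvalues (`TH170/GS`, `Q29/DP`, `Q29/EP` of the starting files, and the
bridge `Run7/h879/HA` of helper879), so the Tate classes are polynomials in divisor classes
(`TS/DivMain`), and by Soulé, Geisser, Kahn, Jannsen the regulators of the generators are
isomorphisms onto the Frobenius invariants in all degrees. The t-structure is constructed from this in
`Run7/h312/TS`: by the five lemma the regulators are isomorphisms for all objects of `C j`, so the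
realisation is faithful, the rational trace form on the ring `End X` is not degenerate for `X` in
degree zero, this ring is semisimple; hence the class of the objects with Künneth components given by
endomorphisms, independent of `ℓ`, is closed under extensions, and contains all objects.
-/

set_option autoImplicit false

namespace Pool.Agent.Results.MP_6d0ce9_ag.HalfOfAllTypes

open Pool.Agent.Q29.EP Pool.Agent.Run7.h879.HA Pool.Agent.Run7.h312.TS

/-- The property `Holds` of the families of slope types: the motivic t-structure exists on the
categories of motives over algebraic extensions of finite fields generated by abelian varieties with
the slope types `Φ`, and these categories are semisimple. -/
def Holds : TypeProperty := fun _ _ ν _ _ K _ _ _ M Φ =>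
  ExistsFor fun _ _ _ _ T X => IsAbelianOfSlopeTypes ν K M Φ T X

/-- **The motivic t-structure exists on the categories of motives over algebraic extensions of
finite fields generated by abelian varieties with one half of all slope types of every CM field of
degree `2 r ^ k`.** -/
theorem result :
    HalfOfAll Holds ∧ MostWithWeightsOne Holds ∧ OneOfTwo Holds ∧ SixteenPercent Holds :=
  four (of_notMem fun _ _ _ _ _ _ _ _ _ _ _ hind hM hΦ hnd =>
    existsFor_slopeTypes hind hM hΦ hnd)

end Pool.Agent.Results.MP_6d0ce9_ag.HalfOfAllTypes
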