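import Pool.Agent.Run7.h985.TC.CritEq
import Pool.Agent.Run7.h985.TC.DES
import Pool.Agent.Run7.h663.TC.DUAL
import Pool.Agent.Run7.h663.TC.FTH
import Pool.Agent.Run7.h192.TC.NIL
import Pool.Agent.Run7.h354.TC.CR1
import Pool.Agent.Run7.h354.TC.CNV
import Pool.Agent.Run7.h441.TC.CR2
import Pool.Agent.Run7.h642.TC.IMG
import Pool.Agent.Run7.h824.TC.T1
import Pool.Agent.Run7.h824.TC.CK2
import Pool.Agent.Run7.h824.TC.W1
import Pool.Agent.Run7.h824.TC.W2
import Pool.Agent.Run7.h650.TC.T2
import Pool.Agent.Run7.h985.TC.T3c
import Pool.Agent.Run7.h403.TC.CK1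
import Pool.Agent.Run7.h617.TC.NILC
import Pool.Agent.Run7.h617.TC.GFT
import Pool.Agent.Run7.h617.TC.CRU
import Pool.Agent.Run7.h237.TC.CLG
import Pool.Agent.Run7.h675.TC.W3

/-!
# Criteria for the motivic t-structure: injectivity and generation

Let `C` be the category of constructible motives over a field (or any idempotent complete rigid
tensor triangulated category with an indecomposable unit) and let `R l` be its realisations, with
coefficients in fields of characteristic zero. Suppose that `C` is generated by objects `Q` (for
motives: the `M(X)(m)[2m]` with `X` smooth and projective) which satisfy the hard Lefschetz theorem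
for one `R l₀` and the Betti numbers of which do not depend on `l`; for motives these are theorems
of Deligne. Say that `X` is in degree `a` if `H^i(X) = 0` for `i ≠ a` in the cohomology `R l₀`. The
following are equivalent.

1. There is a t-structure which is motivic for all `R l`.
2. There is a t-structure which is motivic for `R l₀`.
3. For every `X` in degree zero, `Hom(𝟙, X) ⟶ H(X)` is injective and `Hom(𝟙, X⟦-n⟧) = 0` for
   `n > 0`; and the objects in degree zero generate `C` as a thick triangulated subcategory.
4. The same injectivity and vanishing; and every object of `Q` is a finite direct sum of objects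
   which are in one degree each.
5. `C` is generated by a class `S` of objects in degree zero, which contains `𝟙` and is closed under
   tensor products and duals, such that for `X` in `S` the map `Hom(𝟙, X) ⟶ H(X)` is injective and
   `Hom(𝟙, X⟦-n⟧) = 0` for `n > 0`, and such that for every triangle `F ⟶ 𝟙 ⟶ P ⟶ F⟦1⟧` with `F` in
   `S` and a nonzero first morphism, some tensor power of `𝟙 ⟶ P` is zero. For motives one can
   think of `S` = the summands in one degree of the Chow motives, shifted to degree zero; then the
   last condition holds if homological and numerical equivalence agree, since `𝟙 ⟶ P` is zero.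
6. `R l₀` is conservative and every object `X` has a morphism `A ⟶ X` which looks like a truncation
   in the cohomology `R l₀`.

No t-structure, no truncations, kernels or cokernels, no semisimplicity and no conservativity are
assumed in 3, 4 and 5. The equivalence of 1, 2 and 6 is due to helper822 (OneRealisationSuffices),
it is used here for 1 and 2.

The idea of the proof of 3 ⟹ 2. By rigidity, `R` is faithful on the maps `X⟦n⟧ ⟶ Y`, `n ≥ 0`,
between objects in degree zero. The point is that every map `f : M ⟶ N` of such objects has an
image. Cramer's rule for the exterior powers of `f`, in the largest degree where they do not vanish,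
gives an object `F` in degree zero, a nonzero `v : F ⟶ 𝟙` and `b : N ⊗ F ⟶ M` with `f b f = v f`:
the image exists after multiplication with `v`. The third vertex `P` of a triangle on `v` is in degree
`-1`, so its cohomology is odd and its symmetric powers vanish; since they contain the powers of
`q : 𝟙 ⟶ P`, the map `q` is nilpotent. Nilpotence gives descent: the image is constructed as the
limit of a tower, which is a direct summand of one of its stages. For 5 ⟹ 2, the objects which are
images after multiplication with some `v` form a larger class `S` with the same properties, closed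
under kernels and cokernels; so the iterated extensions of its shifts can be sorted by degree.
-/

set_option autoImplicit false

open CategoryTheory Limits MonoidalCategory Pretriangulated Triangulated

universe v u w

namespace Pool.Agent.Results.MP_6d0ce9_ag.InjectivityAndGeneration

open Pool.Agent.Y116.MT Pool.Agent.V1178.MT Run7.h822.MT Run7.h985.Crit

/-- The six conditions are equivalent. -/
theorem result {C : Type u} [Category.{v} C] [Preadditive C] [HasZeroObject C] [HasShift C ℤ]
    [∀ n : ℤ, (shiftFunctor C n).Additive] [Pretriangulated C] [IsTriangulated C]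
    [MonoidalCategory C] [SymmetricCategory C] [TensorTriangulated C] [MonoidalPreadditive C]
    [RightRigidCategory C] [IsIdempotentComplete C]
    (hid : ∀ e : 𝟙_ C ⟶ 𝟙_ C, e ≫ e = e → e = 0 ∨ e = 𝟙 _)
    {Λ : Type*} {E : Λ → Type w} [∀ l, Field (E l)] [∀ l, CharZero (E l)]
    (R : ∀ l, Realisation C (E l)) (l₀ : Λ) (Q : ObjectProperty C) (T : C)
    (hQ : PureGenerators Q T R l₀) :
    List.TFAE [∃ t : TStructure C, IsMotivic t R,
      ∃ t : TStructure C, IsMotivic t (fun _ : Unit => R l₀),
      Injective (R l₀) (DegZero (R l₀)) ∧ Generates (DegZero (R l₀)),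
      Injective (R l₀) (DegZero (R l₀)) ∧ ∀ X, Q X → IsSum (R l₀) X,
      ∃ S : ObjectProperty C, Good (R l₀) S ∧ Nilpotent S ∧ Generates S,
      Conservative (R l₀) ∧ ∀ X : C, ∃ (A : C) (f : A ⟶ X), LooksLikeTruncation (R l₀) f] := by
  have hDUAL := Run7.h663.TC.t_DUAL.{v, u, w}
  have hFTH := Run7.h663.TC.t_FTH.{v, u, w}
  have hIMG := Pool.Agent.Run7.h642.TC.t_IMG.{v, u, w} Run7.h192.TC.t_NIL
    Run7.h985.TC.t_DES Run7.h354.TC.t_CR1 Run7.h441.TC.t_CR2
  have hT2 := Run7.h650.TC.t_T2.{v, u, w} Run7.h824.TC.t_T1
  have hT3 := Run7.h985.TC.T3c.t_T3.{v, u, w}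
  have hCNV := Run7.h354.TC.t_CNV.{v, u, w}
  have hGFT := Run7.h617.TC.t_GFT.{v, u, w}
  have hNILC := Run7.h617.TC.t_NILC.{v, u, w}
  have h5 := Run7.h985.TC.family hid hDUAL hFTH hIMG hT2 hT3 hCNV Run7.h403.TC.t_CK1 Run7.h824.TC.t_CK2
    R l₀ Q T hQ
  have h6 := Run7.h985.TC.N2.five hid hDUAL hCNV hNILC hGFT Run7.h617.TC.t_CRU Run7.h441.TC.t_CR2
    Run7.h824.TC.t_W1 Run7.h824.TC.t_W2 Run7.h675.TC.t_W3 (R l₀)
  have hs : (∀ X, Q X → IsSum (R l₀) X) ↔ ∀ X, Q X → Run7.h985.TC.IsSum (R l₀) X :=
    forall_congr' fun X => imp_congr_right fun _ => isSum_iff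
  tfae_have 1 ↔ 2 := h5.out 0 1
  tfae_have 2 ↔ 3 := (h5.out 1 2).trans (and_congr_left' inj_iff.symm)
  tfae_have 2 ↔ 4 := (h5.out 1 3).trans (and_congr inj_iff.symm hs.symm)
  tfae_have 2 ↔ 5 := h6.trans (exists_congr fun S =>
    and_congr good_iff.symm (and_congr_left' nilpotent_iff.symm))
  tfae_have 2 ↔ 6 := h5.out 1 4
  tfae_finish

end Pool.Agent.Results.MP_6d0ce9_ag.InjectivityAndGeneration
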